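import Pool.Agent.Lib.MP_cd2b7c_an.Fin

open MeasureTheory

namespace Pool.Agent.Retired.MP_cd2b7c_an.AllExponents

/-- For a second countable compact abelian group `G` and `1 < q < ∞`, all translation invariant
linear functionals on `L^q(G)` are continuous if and only if `G` has a finitely generated dense
subgroup. -/
theorem result (G : Type*) [AddCommGroup G] [TopologicalSpace G] [IsTopologicalAddGroup G]
    [CompactSpace G] [T2Space G] [SecondCountableTopology G] [MeasurableSpace G] [BorelSpace G]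
    (μ : Measure G) [μ.IsAddHaarMeasure] (q : ENNReal) [Fact (1 ≤ q)] (h1 : 1 < q) (hq : q ≠ ⊤) :
    (∀ φ : Lp ℂ q μ →ₗ[ℂ] ℂ,
      (∀ (a : G) (f g : Lp ℂ q μ),
        (g : G → ℂ) =ᵐ[μ] (fun x => (f : G → ℂ) (x + a)) → φ g = φ f) → Continuous φ) ↔
    ∃ S : Finset G, Dense (AddSubgroup.closure (S : Set G) : Set G) :=
  Pool.Agent.Lib.MP_cd2b7c_an.auto_iff q μ h1 hq

end Pool.Agent.Retired.MP_cd2b7c_an.AllExponents
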