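import Pool.Agent.Lib.MP_cd2b7c_an.NA.Fin

open MeasureTheory

namespace Pool.Agent.Retired.MP_cd2b7c_an.Profinite

/-- Let `G` be a profinite group with an open subgroup `U` whose image in each finite quotient of
`G` has a normal chain with central or cyclic factors down to a commutative subgroup, and let
`1 < q < ∞`. All left invariant linear functionals on `L^q(G)` are continuous if and only if `G`
has a finitely generated dense subgroup. -/
theorem result (G : Type*) [Group G] [TopologicalSpace G] [IsTopologicalGroup G] [CompactSpace G]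
    [TotallyDisconnectedSpace G] [MeasurableSpace G] [BorelSpace G]
    (μ : Measure G) [μ.IsHaarMeasure] (q : ENNReal) [Fact (1 ≤ q)] (h1 : 1 < q) (hq : q ≠ ⊤)
    (U : Subgroup G) (hO : IsOpen (U : Set G))
    (hU : ∀ N : Subgroup G, N.Normal → IsOpen (N : Set G) →
      ∃ (k : ℕ) (C : ℕ → Subgroup U), C 0 = ⊤ ∧ (∀ j, (C j).Normal) ∧
        (∀ j < k, ⁅C j, ⊤⁆ ≤ C (j + 1) ∨ ∃ g : U, C j ≤ C (j + 1) ⊔ Subgroup.zpowers g) ∧
        ⁅C k, C k⁆ ≤ N.subgroupOf U) :
    (∀ φ : Lp ℂ q μ →ₗ[ℂ] ℂ,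
      (∀ (a : G) (f g : Lp ℂ q μ),
        (g : G → ℂ) =ᵐ[μ] (fun x => (f : G → ℂ) (a * x)) → φ g = φ f) → Continuous φ) ↔
    ∃ S : Finset G, Dense (Subgroup.closure (S : Set G) : Set G) :=
  Pool.Agent.Lib.MP_cd2b7c_an.NA.auto_iff q h1 hq hO (fun N hN hN' => by
    obtain ⟨k, C, a0, a1, a2, a3⟩ := hU N hN hN'
    exact Pool.Agent.Lib.MP_cd2b7c_an.NA.cl_map a0 a1 a2 a3) μ

end Pool.Agent.Retired.MP_cd2b7c_an.Profinite
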